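import Mathlib
import Pool.Agent.Lib.MP_dbb03c_co.Main
import Pool.Agent.Lib.MP_dbb03c_co.Up

/-!
# MP_dbb03c_co: the threshold for `T̂(400,3,800)` up to an additive constant

`TV`, `Child`, `HatAdj`, `hom`, `dH` are defined in `Pool.Agent.Lib.MP_dbb03c_co.Stmt`.
-/

set_option autoImplicit false

namespace Pool.Agent.Lib.MP_dbb03c_co.Old.AdditiveConstant

open Pool.Agent.Lib.MP_dbb03c_co

theorem additive_constant :
    (∃ C : ℕ, ∀ n : ℕ, 3 ≤ n → n ≤ dH (HatAdj 400 3 800) n + C) ∧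
    (∃ N : ℕ, ∀ n : ℕ, N ≤ n → dH (HatAdj 400 3 800) n + 4 ≤ n) :=
  ⟨lower, upper⟩

end Pool.Agent.Lib.MP_dbb03c_co.Old.AdditiveConstant
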